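import Pool.Agent.H.MP_db5e86_an.Poly

namespace Pool.Agent.Results.MP_db5e86_an.No

open Filter Topology Polynomial

/-- `R = a (1 + P / (Q P + P'))` as a function on `ℂ` (meaningful off the zeros of `QP + P'`). -/
noncomputable def Rf (a : ℂ) (P Q : ℂ[X]) (z : ℂ) : ℂ :=
  a * (1 + P.eval z / (Q * P + derivative P).eval z)

/-- The rational function represented by `f` takes the finite value `a` at `z`. -/
def Takes (f : ℂ → ℂ) (z a : ℂ) : Prop := Tendsto f (𝓝[≠] z) (𝓝 a)

lemma takes_iff {f : ℂ → ℂ} {z a : ℂ} (h : ContinuousAt f z) : Takes f z a ↔ f z = a :=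
  ⟨fun t => tendsto_nhds_unique (h.tendsto.mono_left nhdsWithin_le_nhds) t,
    fun e => e ▸ h.tendsto.mono_left nhdsWithin_le_nhds⟩

theorem result (a : ℂ) (ha : a ≠ 0) (P Q : ℂ[X]) (hP : ∀ z, P.rootMultiplicity z ≤ 1)
    (hQ : Q ≠ 0)
    (hR : ¬ ∃ c : ℂ, ∀ z, (Q * P + derivative P).eval z ≠ 0 → Rf a P Q z = c) :
    ∃ z : ℂ, Takes (deriv (Rf a P Q)) z a ∧ ¬ Takes (Rf a P Q) z a := by
  by_contra hn
  push Not at hn
  have hP0 : P ≠ 0 := by
    rintro rfl
    exact hR ⟨0, fun z hz => absurd (by simp) hz⟩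
  have hE : ∀ z, (Q * P + derivative P).eval z ≠ 0 →
      (Q * (Q * P + derivative P) + derivative (Q * P + derivative P)).eval z = 0 →
      P.eval z = 0 := by
    set D := Q * P + derivative P with hD
    intro z hz hz'
    have hd : ∀ y, D.eval y ≠ 0 → HasDerivAt (Rf a P Q) (a * (((derivative P).eval y * D.eval y -
        P.eval y * (derivative D).eval y) / D.eval y ^ 2)) y := fun y hy =>
      (((P.hasDerivAt y).div (D.hasDerivAt y) hy).const_add 1).const_mul a
    have hev := D.continuous.continuousAt.eventually_ne hz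
    have hc : ContinuousAt (deriv (Rf a P Q)) z := by
      refine ContinuousAt.congr (f := fun y => a * (((derivative P).eval y * D.eval y -
        P.eval y * (derivative D).eval y) / D.eval y ^ 2)) ?_ ?_
      · refine continuousAt_const.mul (ContinuousAt.div ?_ ?_ (pow_ne_zero _ hz)) <;> fun_prop
      · filter_upwards [hev] with y hy using (hd y hy).deriv.symm
    have h1 := (takes_iff (hd z hz).continuousAt).1 (hn z ((takes_iff hc).2 (by
      rw [(hd z hz).deriv]
      have e1 : (derivative P).eval z = D.eval z - Q.eval z * P.eval z := by simp [hD]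
      have e2 : (derivative D).eval z = - (Q.eval z * D.eval z) := by
        rw [eval_add, eval_mul] at hz'; linear_combination hz'
      rw [e1, e2]; field_simp; ring)))
    rw [Rf, ← hD] at h1
    field_simp at h1
    linear_combination h1
  by_cases hdeg : P.degree = 0
  · obtain ⟨c, rfl⟩ : ∃ c, P = C c := ⟨_, eq_C_of_degree_eq_zero hdeg⟩
    have hc : c ≠ 0 := by rintro rfl; simp at hP0
    refine Pool.Agent.H.MP_db5e86_an.const_case Q (Nat.pos_of_ne_zero fun h => ?_) fun z hz => ?_
    · obtain ⟨b, rfl⟩ := natDegree_eq_zero.1 h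
      exact hR ⟨a * (1 + c / (b * c)), fun z _ => by simp [Rf]⟩
    · by_contra h
      apply hc
      have := hE z (by simp [h, hc]) (by
        simp only [eval_add, eval_mul] at hz
        simp only [derivative_C, add_zero, derivative_mul, mul_zero, eval_add, eval_mul, eval_C]
        linear_combination c * hz)
      simpa using this
  · obtain ⟨a0, ha0⟩ := IsAlgClosed.exists_root P hdeg
    refine Pool.Agent.H.MP_db5e86_an.root_case P Q hP0 hQ (fun z hz h => ?_) a0 ha0 hE
    exact absurd ((one_lt_rootMultiplicity_iff_isRoot hP0).2 ⟨hz, h⟩) (not_lt.2 (hP z))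

end Pool.Agent.Results.MP_db5e86_an.No
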